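import Pool.Agent.Helper23.CC.Spec

set_option autoImplicit false

namespace Pool.Agent.Helper23.CC.Helper53

open MvPolynomial

theorem clt (h1 : St_GEN) (h2 : St_NAT) (h3 : St_PLACE) (h4 : St_RED) (h5 : St_DESC) :
    St_CLT := by
  intro K _ _ _ n hn A σ _ _ _ _ d Z own mult F hF hd hmult hsum hle
  obtain ⟨N, rfl⟩ : ∃ N, n = N + 1 := ⟨n - 1, by omega⟩
  have hle' : ∑ a ∈ Z, (d a + 1) +
      ∑ a ∈ Zᶜ, (d a - (Finset.univ.filter fun s => own s = a).card) ≤ 2 * N := by
    simpa using hle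
  let R : Type := MvPolynomial (Tau N A σ) K
  let Ω : Type := FractionRing R
  let g : R →+* Ω := algebraMap R Ω
  have hg : Function.Injective g := IsFractionRing.injective R Ω
  let π : Tau N A σ → Ω := fun t => g (X t)
  obtain ⟨N1, N2, N3⟩ := h2 N A σ d Z own mult
  let H : A → MvPolynomial (Fin (N + 2)) Ω := fun a => FF d Z own mult π a
  have hmap : ∀ a, map g (FF d Z own mult (fun t => (X t : R)) a) = H a := fun a => N1 R Ω g _ a
  have hhom : ∀ a, (H a).IsHomogeneous (d a) := fun a => N3 hd hsum Ω π a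
  have hgen := h1 K N A σ d Z own mult hd hmult hsum hle'
  let y : ((a : A) × {I : Fin (N + 2) →₀ ℕ // I.degree = d a}) → Ω :=
    fun p => coeff p.2.1 (H p.1)
  have hy : AlgebraicIndependent K y := by
    have := hgen.map' (f := IsScalarTower.toAlgHom K R Ω) hg
    refine (Eq.mp ?_ this)
    congr 1
    funext p
    show g (coeff p.2.1 (FF d Z own mult (fun t => (X t : R)) p.1)) = coeff p.2.1 (H p.1)
    rw [← hmap, coeff_map]
  obtain ⟨O, hO1, hO2⟩ := h3 K Ω _ y (fun p => coeff p.2.1 (F p.1)) hy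
  have hred := h4 K Ω O (N + 1) A σ Z own mult H F (lp π) (lq π)
    (fun s => π (.inr (.inl (.inl s)))) (fun s => π (.inr (.inl (.inr s)))) hO1 ?_ ?_ ?_ ?_
  · obtain ⟨L, _, _, hL⟩ := hred
    exact h5 K L (N + 1) A σ Z own mult F hL
  · intro a I
    by_cases hI : I.degree = d a
    · exact hO2 ⟨a, ⟨I, hI⟩⟩
    · have e1 : coeff I (H a) = 0 := (hhom a).coeff_eq_zero hI
      have e2 : coeff I (F a) = 0 := (hF a).coeff_eq_zero hI
      rw [e1, e2, map_zero, sub_zero, map_zero]
      exact zero_lt_one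
  · intro x y hxy
    have e0 := hxy 0
    have e1 := hxy 1
    have l0 : lp π 0 = 1 := rfl
    have l1 : lp π 1 = 0 := rfl
    have m0 : lq π 0 = 0 := rfl
    have m1 : lq π 1 = 1 := rfl
    rw [l0, m0] at e0
    rw [l1, m1] at e1
    constructor
    · simpa using e0
    · simpa using e1
  · intro s
    left
    show g (X _) ≠ 0
    intro h
    rw [map_eq_zero_iff g hg] at h
    exact X_ne_zero _ h
  · intro a x y
    exact N2 Ω π a x y

end Pool.Agent.Helper23.CC.Helper53
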