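import Pool.Agent.Helper23.CC.Spec

set_option autoImplicit false

namespace Pool.Agent.Helper23.CC.Helper53

theorem norm : St_NORM := by
  intro Ω _ O n P Q hPQ
  let D : Fin (n + 1) × Fin (n + 1) → Ω := fun p => P p.1 * Q p.2 - P p.2 * Q p.1
  obtain ⟨q, hq⟩ : ∃ q, D q ≠ 0 := by
    by_contra hcon
    have hcon' : ∀ i j, P i * Q j - P j * Q i = 0 := by
      intro i j
      by_contra h
      exact hcon ⟨(i, j), h⟩
    have hP : ∃ i, P i ≠ 0 := by
      by_contra h
      have h' : ∀ i, P i = 0 := by
        intro i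
        by_contra h2
        exact h ⟨i, h2⟩
      have := (hPQ 1 0 (by intro l; rw [h' l]; ring)).1
      exact one_ne_zero this
    obtain ⟨i, hi⟩ := hP
    have := (hPQ (Q i) (- P i) (by intro l; linear_combination - hcon' i l)).2
    exact hi (neg_eq_zero.1 this)
  obtain ⟨p, _, hp⟩ := Finset.exists_max_image (Finset.univ : Finset (Fin (n + 1) × Fin (n + 1)))
    (fun p => O.valuation (D p)) ⟨q, Finset.mem_univ _⟩
  have hp0 : D p ≠ 0 := by
    intro h0
    have h1 := hp q (Finset.mem_univ _)
    simp only [h0, map_zero] at h1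
    exact hq ((O.valuation.zero_iff).1 (le_antisymm h1 zero_le'))
  obtain ⟨i, j⟩ := p
  have hD : P i * Q j - P j * Q i ≠ 0 := hp0
  have hO : ∀ q, D q / D (i, j) ∈ O := by
    intro q
    rw [← O.valuation_le_one_iff, map_div₀]
    exact div_le_one_of_le₀ (hp q (Finset.mem_univ _)) zero_le'
  refine ⟨fun l => Q j / D (i, j) * P l + (- P j / D (i, j)) * Q l,
    fun l => (- Q i / D (i, j)) * P l + P i / D (i, j) * Q l, i, j, Q j / D (i, j),
    - P j / D (i, j), - Q i / D (i, j), P i / D (i, j), ?_, fun l => rfl, fun l => rfl,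
    ?_, ?_, ?_, ?_, fun l => ⟨?_, ?_⟩⟩
  · have : Q j / D (i, j) * (P i / D (i, j)) - (- P j / D (i, j)) * (- Q i / D (i, j)) =
        1 / D (i, j) := by
      field_simp
      show _ = P i * Q j - P j * Q i
      ring
    rw [this]
    exact one_div_ne_zero hp0
  · show Q j / D (i, j) * P i + (- P j / D (i, j)) * Q i = 1
    field_simp
    show _ = P i * Q j - P j * Q i
    ring
  · show Q j / D (i, j) * P j + (- P j / D (i, j)) * Q j = 0
    ring
  · show (- Q i / D (i, j)) * P i + P i / D (i, j) * Q i = 0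
    ring
  · show (- Q i / D (i, j)) * P j + P i / D (i, j) * Q j = 1
    field_simp
    show _ = P i * Q j - P j * Q i
    ring
  · have : Q j / D (i, j) * P l + (- P j / D (i, j)) * Q l = D (l, j) / D (i, j) := by
      field_simp
      show _ = P l * Q j - P j * Q l
      ring
    show Q j / D (i, j) * P l + (- P j / D (i, j)) * Q l ∈ O
    rw [this]
    exact hO _
  · have : (- Q i / D (i, j)) * P l + P i / D (i, j) * Q l = D (i, l) / D (i, j) := by
      field_simp
      show _ = P i * Q l - P l * Q i
      ring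
    show (- Q i / D (i, j)) * P l + P i / D (i, j) * Q l ∈ O
    rw [this]
    exact hO _

end Pool.Agent.Helper23.CC.Helper53
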