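import Pool.Agent.Helper23.CC.Spec

set_option autoImplicit false

namespace Pool.Agent.Helper23.CC.Helper53

open MvPolynomial

theorem place : St_PLACE := by
  intro K Ω _ _ _ ι y z hy
  let φ : MvPolynomial ι K →+* Ω := (aeval y : MvPolynomial ι K →ₐ[K] Ω).toRingHom
  let ψ : MvPolynomial ι K →+* K := (aeval z : MvPolynomial ι K →ₐ[K] K).toRingHom
  have hφ : Function.Injective φ := hy
  let I : Ideal φ.range := (RingHom.ker ψ).map φ.rangeRestrict
  have hsur : Function.Surjective φ.rangeRestrict := φ.rangeRestrict_surjective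
  have hI : I ≠ ⊤ := by
    intro h
    have h1 : (1 : φ.range) ∈ I := by rw [h]; trivial
    obtain ⟨p, hp, hp1⟩ := (Ideal.mem_map_iff_of_surjective _ hsur).1 h1
    have h2 : φ p = φ 1 := by
      have := congrArg Subtype.val hp1
      simpa using this
    have h3 : p = 1 := hφ h2
    rw [RingHom.mem_ker, h3, map_one] at hp
    exact one_ne_zero hp
  obtain ⟨B, hB1, hB2⟩ := Ideal.image_subset_nonunits_valuationSubring I hI
  refine ⟨B, fun c => ?_, fun i => ?_⟩
  · apply hB1
    refine ⟨C c, ?_⟩
    show aeval y (C c) = _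
    rw [MvPolynomial.aeval_C]
  · have hmem : y i - algebraMap K Ω (z i) ∈ B.nonunits := by
      apply hB2
      refine ⟨φ.rangeRestrict (X i - C (z i)), ?_, ?_⟩
      · apply Ideal.mem_map_of_mem
        rw [RingHom.mem_ker]
        show aeval z (X i - C (z i)) = 0
        simp
      · show aeval y (X i - C (z i)) = _
        simp
    exact (B.mem_nonunits_iff).1 hmem

end Pool.Agent.Helper23.CC.Helper53
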